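import Mathlib

set_option autoImplicit false

/-!
# Packed vectors of residues

A natural number is read as a vector with entries (lanes) of twenty bits.
-/

namespace Pool.Agent.H41.MK

/-- lane `i` of a packed vector -/
def ln (X i : ℕ) : ℕ := (X >>> (20 * i)) % 1048576

theorem ln_lt (X i : ℕ) : ln X i < 1048576 := Nat.mod_lt _ (by norm_num)

theorem ln_eq (X i : ℕ) : ln X i = X / 2 ^ (20 * i) % 2 ^ 20 := by
  rw [ln, Nat.shiftRight_eq_div_pow]; norm_num

theorem carry (A Q : ℕ) : ∀ i, (∀ j, j < i → ln A j + ln Q j < 1048576) →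
    A % 2 ^ (20 * i) + Q % 2 ^ (20 * i) < 2 ^ (20 * i) := by
  intro i
  induction i with
  | zero => intro _; simp [Nat.mod_one]
  | succ i ih =>
    intro h
    have h1 := ih (fun j hj => h j (by omega))
    have h2 := h i (by omega)
    rw [ln_eq, ln_eq] at h2
    have e : 2 ^ (20 * (i + 1)) = 2 ^ (20 * i) * 2 ^ 20 := by rw [← pow_add]; congr 1
    rw [e, Nat.mod_mul, Nat.mod_mul]
    generalize 2 ^ (20 * i) = m at *
    generalize A / m % 2 ^ 20 = a at *
    generalize Q / m % 2 ^ 20 = q at *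
    have h3 : m * (a + q + 1) ≤ m * 2 ^ 20 := Nat.mul_le_mul_left m (by norm_num; omega)
    have h4 : m * (a + q + 1) = m * a + m * q + m := by ring
    omega

theorem ln_add {A Q : ℕ} (h : ∀ j, ln A j + ln Q j < 1048576) (i : ℕ) : ln (A + Q) i = ln A i + ln Q i := by
  have h1 := carry A Q i (fun j _ => h j)
  have h2 := h i
  rw [ln_eq, ln_eq] at h2
  rw [ln_eq, ln_eq, ln_eq]
  have hm : 0 < 2 ^ (20 * i) := by positivity
  generalize 2 ^ (20 * i) = m at *
  have e : (A + Q) / m = A / m + Q / m := by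
    rw [Nat.add_div hm, if_neg (by omega), add_zero]
  rw [e, Nat.add_mod, Nat.mod_eq_of_lt (a := A / m % 2 ^ 20 + Q / m % 2 ^ 20) (by norm_num at h2 ⊢; omega)]

theorem ln_xor (X Y i : ℕ) : ln (X ^^^ Y) i = ln X i ^^^ ln Y i := by
  have e : (1048576 : ℕ) = 2 ^ 20 := by norm_num
  rw [ln, ln, ln, Nat.shiftRight_xor_distrib, e, Nat.xor_mod_two_pow]

theorem ln_and (X Y i : ℕ) : ln (X &&& Y) i = ln X i &&& ln Y i := by
  have e : (1048576 : ℕ) = 2 ^ 20 := by norm_num
  rw [ln, ln, ln, Nat.shiftRight_and_distrib, e, Nat.and_mod_two_pow]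

theorem ln_shift (X s i : ℕ) : ln (X >>> (20 * s)) i = ln X (s + i) := by
  rw [ln, ln, ← Nat.shiftRight_add, mul_add]

/-- the vector with `n` entries one -/
def ones : ℕ → ℕ
  | 0 => 0
  | n + 1 => ones n * 1048576 + 1

theorem ln_zero_right (X T : ℕ) (hT : T < 1048576) : ln (X * 1048576 + T) 0 = T := by
  rw [ln]; simp; omega

theorem ln_succ_right (X T i : ℕ) (hT : T < 1048576) : ln (X * 1048576 + T) (i + 1) = ln X i := by
  rw [ln_eq, ln_eq]
  have e : 2 ^ (20 * (i + 1)) = 2 ^ 20 * 2 ^ (20 * i) := by rw [← pow_add]; congr 1; ring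
  have e2 : (X * 1048576 + T) / 2 ^ 20 = X := by
    have : (1048576 : ℕ) = 2 ^ 20 := by norm_num
    rw [← this]; omega
  rw [e, ← Nat.div_div_eq_div_mul, e2]

theorem ln_ones (T n i : ℕ) (hT : T < 1048576) : ln (T * ones n) i = if i < n then T else 0 := by
  induction n generalizing i with
  | zero => simp [ones, ln]
  | succ n ih =>
    have e : T * ones (n + 1) = (T * ones n) * 1048576 + T := by rw [ones]; ring
    rw [e]
    cases i with
    | zero => rw [ln_zero_right _ _ hT]; simp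
    | succ i => rw [ln_succ_right _ _ _ hT, ih]; simp

theorem xor_eq_zero' {a b : ℕ} (h : a = b) : a ^^^ b = 0 := by rw [h, Nat.xor_self]

theorem zero_add_mask : (0 + 524287) &&& 524288 = 0 := by decide

/-- the mask detects zero lanes -/
theorem mask_bit {x : ℕ} (hx : x < 524288) (h : (x + 524287) &&& 524288 = 524288 → False) : x = 0 := by
  by_contra h0
  apply h
  have e : x + 524287 = 2 ^ 19 + (x - 1) := by norm_num; omega
  have e2 : (524288 : ℕ) = 2 ^ 19 := by norm_num
  rw [e, e2, Nat.and_two_pow, Nat.testBit_two_pow_add_eq, Nat.testBit_lt_two_pow (by norm_num; omega)]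
  simp

end Pool.Agent.H41.MK
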