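import Mathlib
import Pool.Graph.R_pool_sql_team_seeded_35f281b4.K7.H27.MK.Chk
import Pool.Agent.H41.MK.Lane

set_option autoImplicit false

/-!
# Fast kernel check of the certificate with packed vectors
-/

namespace Pool.Agent.H41.MK

open Pool.Agent.K7.H27.MK

/-- data of a certificate -/
structure Dat2 where
  /-- block length -/
  L : ℕ
  /-- least forbidden period -/
  P : ℕ
  /-- norm -/
  N : ℕ
  /-- `μ` -/
  ma : ℤ
  /-- `μ` -/
  mb : ℤ
  /-- `C0` -/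
  ca : ℤ
  /-- `C0` -/
  cb : ℤ
  /-- image of `ω` modulo `N` -/
  ka : ℤ
  /-- coordinates of the paths -/
  fx : ℕ → ℕ → ℤ
  /-- coordinates of the paths -/
  fy : ℕ → ℕ → ℤ
  /-- packed residues of the paths -/
  A : ℕ → ℕ
  /-- packed residues, reversed, with the constants -/
  Q : ℕ → ℕ → ℕ
  /-- packed targets -/
  T : ℕ → ℕ → ℕ
  /-- packed ones -/
  O : ℕ
  /-- packed masks -/
  H : ℕ
  /-- packed masks -/
  F : ℕ

/-- the constant vector -/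
def Dat2.cv (D : Dat2) (δ c : ℕ) : ℤ × ℤ :=
  let u := (ee ((2 * δ + 4 - c) % 3)).1 - 2 * (ee δ).1
  let v := (ee ((2 * δ + 4 - c) % 3)).2 - 2 * (ee δ).2
  (D.ca * u - D.cb * v, D.ca * v + D.cb * u - D.cb * v)

/-- first coordinate of `X` -/
def Dat2.X1 (D : Dat2) (r0 r1 r2 c δ b0 b1 b2 : ℕ) : ℤ :=
  (D.cv δ c).1 + D.fx b0 r0 + (rt ((2 * δ + 4 - c) % 3) (D.fx b2 r2) (D.fy b2 r2)).1
    - 2 * (rt δ (D.fx b1 r1) (D.fy b1 r1)).1

/-- second coordinate of `X` -/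
def Dat2.X2 (D : Dat2) (r0 r1 r2 c δ b0 b1 b2 : ℕ) : ℤ :=
  (D.cv δ c).2 + D.fy b0 r0 + (rt ((2 * δ + 4 - c) % 3) (D.fx b2 r2) (D.fy b2 r2)).2
    - 2 * (rt δ (D.fx b1 r1) (D.fy b1 r1)).2

/-- residue of a vector -/
def Dat2.res (D : Dat2) (x y : ℤ) : ℤ := (x + D.ka * y) % D.N

/-- the residue in position `j` of the reversed vectors, where `j` stands for the position `j - L` -/
def Dat2.qv (D : Dat2) (b δ c r : ℕ) : ℤ :=
  D.res ((D.cv δ c).1 + (rt ((2 * δ + 4 - c) % 3) (D.fx b r) (D.fy b r)).1)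
    ((D.cv δ c).2 + (rt ((2 * δ + 4 - c) % 3) (D.fx b r) (D.fy b r)).2)

/-- the residue of `2 ω ^ δ φ b r` -/
def Dat2.tv (D : Dat2) (b δ r : ℕ) : ℤ :=
  D.res (2 * (rt δ (D.fx b r) (D.fy b r)).1) (2 * (rt δ (D.fx b r) (D.fy b r)).2)

/-- evaluate the argument first -/
def frc (f : ℕ → Bool) (n : ℕ) : Bool :=
  Nat.rec (motive := fun _ => Bool) (f 0) (fun m _ => f (Nat.succ m)) n

theorem frc_eq (f : ℕ → Bool) (n : ℕ) : frc f n = f n := by
  cases n <;> rfl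

/-- run through the nonzero lanes -/
def scan (f : ℕ → Bool) (k : ℕ) : ℕ → ℕ → Bool :=
  Nat.rec (motive := fun _ => ℕ → ℕ → Bool)
    (fun p Z => Nat.rec (motive := fun _ => Bool) true (fun _ _ => frc f p) Z)
    (fun k ih p Z => Nat.rec (motive := fun _ => Bool) true (fun Z' _ =>
      ih p (Nat.mod (Nat.succ Z') (Nat.pow 2 (Nat.mul 20 (Nat.pow 2 k)))) &&
      ih (Nat.add p (Nat.pow 2 k)) (Nat.shiftRight (Nat.succ Z') (Nat.mul 20 (Nat.pow 2 k)))) Z) k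

theorem scan_sound {f : ℕ → Bool} {k : ℕ} : ∀ {p Z : ℕ}, scan f k p Z = true →
    ∀ j, j < 2 ^ k → ∀ i, i < 20 → Z.testBit (20 * j + i) = true → f (p + j) = true := by
  induction k with
  | zero =>
    intro p Z h j hj i hi hZ
    cases Z with
    | zero => simp at hZ
    | succ Z =>
      have h' : frc f p = true := h
      rw [frc_eq] at h'
      have : j = 0 := by simpa using hj
      rw [this]; exact h'
  | succ k ih =>
    intro p Z h j hj i hi hZ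
    cases Z with
    | zero => simp at hZ
    | succ Z =>
      have h' : (scan f k p ((Z + 1) % 2 ^ (20 * 2 ^ k)) &&
        scan f k (p + 2 ^ k) ((Z + 1) >>> (20 * 2 ^ k))) = true := h
      rw [Bool.and_eq_true] at h'
      by_cases e : j < 2 ^ k
      · refine ih h'.1 j e i hi ?_
        rw [Nat.testBit_mod_two_pow, hZ]
        have : 20 * j + i < 20 * 2 ^ k := by omega
        simp [this]
      · rw [pow_succ] at hj
        have h2 := ih h'.2 (j - 2 ^ k) (by omega) i hi (by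
          rw [Nat.testBit_shiftRight, ← hZ]; congr 1; omega)
        rw [show p + j = p + 2 ^ k + (j - 2 ^ k) by omega]
        exact h2

/-- evaluate the argument first -/
def frcI (f : ℤ → Bool) (z : ℤ) : Bool :=
  match z with
  | Int.ofNat n => frc (fun n => f (Int.ofNat n)) n
  | Int.negSucc n => frc (fun n => f (Int.negSucc n)) n

theorem frcI_eq (f : ℤ → Bool) (z : ℤ) : frcI f z = f z := by
  cases z with
  | ofNat n => exact frc_eq (fun n => f (Int.ofNat n)) n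
  | negSucc n => exact frc_eq (fun n => f (Int.negSucc n)) n

/-- `okE` with an evaluation of all the intermediate results -/
def okF (ma mb N : ℤ) (P L c δ r0 r1 b0 b1 b2 : ℕ) (X1 X2 : ℤ) : Bool :=
  frcI (fun u => frcI (fun v =>
    decide (u % N ≠ 0) || decide (v % N ≠ 0) ||
      frcI (fun d1 => frcI (fun d2 => matb P L c δ r0 r1 b0 b1 b2 d1 d2) (v / N)) (u / N))
    (X2 * ma - X1 * mb)) (X1 * (ma - mb) + X2 * mb)

theorem okF_eq (ma mb N : ℤ) (P L c δ r0 r1 b0 b1 b2 : ℕ) (X1 X2 : ℤ) :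
    okF ma mb N P L c δ r0 r1 b0 b1 b2 X1 X2 = okE ma mb N P L c δ r0 r1 b0 b1 b2 X1 X2 := by
  simp only [okF, frcI_eq, okE]

/-- exact test -/
def Dat2.slow (D : Dat2) (r1 δ b0 b1 b2 r0 : ℕ) : Bool :=
  frc (fun c => frc (fun r2 => frcI (fun x => frcI (fun y =>
    okF D.ma D.mb D.N D.P D.L c δ r0 r1 b0 b1 b2 x y)
    (D.X2 r0 r1 r2 c δ b0 b1 b2)) (D.X1 r0 r1 r2 c δ b0 b1 b2))
    ((2 * r1 + D.L - r0) % D.L)) (2 - (2 * r1 + D.L - r0) / D.L)

theorem Dat2.slow_eq (D : Dat2) (r1 δ b0 b1 b2 r0 : ℕ) : D.slow r1 δ b0 b1 b2 r0 =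
  okE D.ma D.mb D.N D.P D.L (2 - (2 * r1 + D.L - r0) / D.L) δ r0 r1 b0 b1 b2
    (D.X1 r0 r1 ((2 * r1 + D.L - r0) % D.L) (2 - (2 * r1 + D.L - r0) / D.L) δ b0 b1 b2)
    (D.X2 r0 r1 ((2 * r1 + D.L - r0) % D.L) (2 - (2 * r1 + D.L - r0) / D.L) δ b0 b1 b2) := by
  simp only [Dat2.slow, frc_eq, frcI_eq, okF_eq]

/-- one comparison of the vector `S` with the number `t` -/
def Dat2.cmp (D : Dat2) (f : ℕ → Bool) (S t : ℕ) : Bool :=
  scan f 12 0 ((((S ^^^ (t * D.O)) + D.H) &&& D.F) ^^^ D.F)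

/-- one row -/
def Dat2.row (D : Dat2) (r1 δ b0 b1 b2 : ℕ) : Bool :=
  D.cmp (D.slow r1 δ b0 b1 b2) (D.A b0 + (D.Q b2 δ >>> (20 * (2 * D.L - 1 - 2 * r1)))) (ln (D.T b1 δ) r1) &&
  D.cmp (D.slow r1 δ b0 b1 b2) (D.A b0 + (D.Q b2 δ >>> (20 * (2 * D.L - 1 - 2 * r1))))
    (ln (D.T b1 δ) r1 + D.N)

/-- the tables are correct -/
structure Dat2.Good (D : Dat2) : Prop where
  hN : (D.N : ℤ) = D.ma * D.ma - D.ma * D.mb + D.mb * D.mb
  hN0 : 0 < D.N
  hN1 : D.N < 262144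
  hL : 0 < D.L
  hL2 : D.L ≤ 4096
  k1 : (D.ma + D.ka * D.mb) % D.N = 0
  k2 : (-D.mb + D.ka * D.ma - D.ka * D.mb) % D.N = 0
  hO : D.O = ones D.L
  hH : D.H = 524287 * ones D.L
  hF : D.F = 524288 * ones D.L
  hA : ∀ r, r < D.L → ∀ b, b < 2 → ((ln (D.A b) r : ℕ) : ℤ) = D.res (D.fx b r) (D.fy b r)
  hA1 : ∀ b, b < 2 → D.A b < 2 ^ (20 * D.L)
  hQ : ∀ r, r < D.L → ∀ c, c < 3 → ∀ b, b < 2 → ∀ δ, δ < 3 →
    ((ln (D.Q b δ) (D.L * c + (D.L - 1 - r)) : ℕ) : ℤ) = D.qv b δ c r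
  hQ1 : ∀ b, b < 2 → ∀ δ, δ < 3 → D.Q b δ < 2 ^ (20 * (3 * D.L))
  hT : ∀ r, r < D.L → ∀ b, b < 2 → ∀ δ, δ < 3 → ((ln (D.T b δ) r : ℕ) : ℤ) = D.tv b δ r

theorem ln_of_lt {X n i : ℕ} (h : X < 2 ^ (20 * n)) (hi : n ≤ i) : ln X i = 0 := by
  rw [ln_eq]
  have : X < 2 ^ (20 * i) := lt_of_lt_of_le h (Nat.pow_le_pow_right (by norm_num) (by omega))
  rw [Nat.div_eq_of_lt this]; rfl

theorem res_lt {D : Dat2} (h : 0 < D.N) (x y : ℤ) : D.res x y < D.N :=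
  Int.emod_lt_of_pos _ (by exact_mod_cast h)

theorem res_nonneg {D : Dat2} (h : 0 < D.N) (x y : ℤ) : 0 ≤ D.res x y :=
  Int.emod_nonneg _ (by have : (0 : ℤ) < D.N := by exact_mod_cast h
                        omega)

theorem xor_lt19 {a b : ℕ} (ha : a < 524288) (hb : b < 524288) : a ^^^ b < 524288 := by
  have e : (524288 : ℕ) = 2 ^ 19 := by norm_num
  rw [e] at *
  exact Nat.xor_lt_two_pow ha hb

theorem cmp_sound {D : Dat2} (hD : D.Good) {f : ℕ → Bool} {S t i : ℕ} (h : D.cmp f S t = true)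
    (hS : ∀ j, ln S j < 524288) (ht : t < 524288) (hi : i < D.L) (he : ln S i = t) : f i = true := by
  rw [Dat2.cmp, hD.hO, hD.hH, hD.hF] at h
  have hL2 := hD.hL2
  have hs := scan_sound h i (by norm_num; omega) 19 (by norm_num)
  rw [Nat.zero_add] at hs
  apply hs
  -- lane i of the vector is 2 ^ 19
  have hX : ∀ j, ln (S ^^^ (t * ones D.L)) j < 524288 := by
    intro j
    rw [ln_xor, ln_ones _ _ _ (by omega)]
    apply xor_lt19 (hS j)
    split_ifs <;> omega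
  have hadd : ln ((S ^^^ (t * ones D.L)) + 524287 * ones D.L) i
      = ln (S ^^^ (t * ones D.L)) i + ln (524287 * ones D.L) i := by
    apply ln_add
    intro j
    have := hX j
    rw [ln_ones _ _ _ (by norm_num)]
    split_ifs <;> omega
  have hl : ln ((((S ^^^ (t * ones D.L)) + 524287 * ones D.L) &&& (524288 * ones D.L)) ^^^ (524288 * ones D.L)) i
      = 524288 := by
    rw [ln_xor, ln_and, hadd, ln_xor, ln_ones _ _ _ (by omega), ln_ones _ _ _ (by norm_num),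
      ln_ones _ _ _ (by norm_num), if_pos hi, if_pos hi, if_pos hi, he, Nat.xor_self]
    decide
  generalize ((((S ^^^ (t * ones D.L)) + 524287 * ones D.L) &&& (524288 * ones D.L)) ^^^ (524288 * ones D.L)) = Z at *
  have hb : (ln Z i).testBit 19 = true := by rw [hl]; decide
  rw [ln] at hb
  have e20 : (1048576 : ℕ) = 2 ^ 20 := by norm_num
  rw [e20, Nat.testBit_mod_two_pow, Nat.testBit_shiftRight] at hb
  simpa using hb

theorem row_sound {D : Dat2} (hD : D.Good) {r1 δ b0 b1 b2 : ℕ} (h : D.row r1 δ b0 b1 b2 = true)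
    {r0 r2 c : ℕ} (h0 : r0 < D.L) (h1 : r1 < D.L) (h2 : r2 < D.L) (hc : c < 3) (hδ : δ < 3)
    (hb0 : b0 < 2) (hb1 : b1 < 2) (hb2 : b2 < 2) (hr : r0 + r2 + D.L = 2 * r1 + D.L * c) (d : Z)
    (hd : (⟨D.X1 r0 r1 r2 c δ b0 b1 b2, D.X2 r0 r1 r2 c δ b0 b1 b2⟩ : Z) = (⟨D.ma, D.mb⟩ : Z) * d) :
    Mat om D.P D.L c δ r0 r1 b0 b1 b2 d := by
  have hN0 : (0 : ℤ) < D.N := by exact_mod_cast hD.hN0
  have hNn := hD.hN1
  -- lanes of the sum
  have hAl : ∀ j, ln (D.A b0) j < D.N := by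
    intro j
    rcases Nat.lt_or_ge j D.L with hj | hj
    · have e1 := hD.hA j hj b0 hb0
      have := res_lt (D := D) hD.hN0 (D.fx b0 j) (D.fy b0 j)
      rw [← e1] at this
      exact_mod_cast this
    · rw [ln_of_lt (hD.hA1 b0 hb0) hj]; exact hD.hN0
  have hQl : ∀ j, ln (D.Q b2 δ) j < D.N := by
    intro j
    rcases Nat.lt_or_ge j (3 * D.L) with hj | hj
    · have hL := hD.hL
      have e0 : D.L * (j / D.L) + (D.L - 1 - (D.L - 1 - j % D.L)) = j := by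
        have e1 := Nat.div_add_mod j D.L
        have e2 : j % D.L < D.L := Nat.mod_lt _ hL
        omega
      have hc3 : j / D.L < 3 := by
        rw [Nat.div_lt_iff_lt_mul hL]; omega
      have e1 := hD.hQ (D.L - 1 - j % D.L) (by omega) (j / D.L) hc3 b2 hb2 δ hδ
      rw [e0] at e1
      have : D.qv b2 δ (j / D.L) (D.L - 1 - j % D.L) < D.N := res_lt hD.hN0 _ _
      rw [← e1] at this
      exact_mod_cast this
    · rw [ln_of_lt (hD.hQ1 b2 hb2 δ hδ) hj]; exact hD.hN0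
  have hSadd : ∀ j, ln (D.A b0 + (D.Q b2 δ >>> (20 * (2 * D.L - 1 - 2 * r1)))) j
      = ln (D.A b0) j + ln (D.Q b2 δ) (2 * D.L - 1 - 2 * r1 + j) := by
    intro j
    rw [ln_add, ln_shift]
    intro k
    rw [ln_shift]
    have a1 := hAl k
    have a2 := hQl (2 * D.L - 1 - 2 * r1 + k)
    omega
  have hS : ∀ j, ln (D.A b0 + (D.Q b2 δ >>> (20 * (2 * D.L - 1 - 2 * r1)))) j < 524288 := by
    intro j
    rw [hSadd]
    have a1 := hAl j
    have a2 := hQl (2 * D.L - 1 - 2 * r1 + j)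
    omega
  -- the lane of interest
  have hlane : 2 * D.L - 1 - 2 * r1 + r0 = D.L * c + (D.L - 1 - r2) := by omega
  have eA := hD.hA r0 h0 b0 hb0
  have eQ := hD.hQ r2 h2 c hc b2 hb2 δ hδ
  rw [← hlane] at eQ
  have eT := hD.hT r1 h1 b1 hb1 δ hδ
  have hTl : ln (D.T b1 δ) r1 < D.N := by
    have : D.tv b1 δ r1 < D.N := res_lt hD.hN0 _ _
    rw [← eT] at this
    exact_mod_cast this
  have hA' := hAl r0
  have hQ' := hQl (2 * D.L - 1 - 2 * r1 + r0)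
  have hSr := hSadd r0
  rw [Dat2.row, Bool.and_eq_true] at h
  -- the sum is congruent to the target
  have hdvd : (D.N : ℤ) ∣ D.X1 r0 r1 r2 c δ b0 b1 b2 + D.ka * D.X2 r0 r1 r2 c δ b0 b1 b2 := by
    obtain ⟨d1, d2⟩ := d
    have e1 : D.X1 r0 r1 r2 c δ b0 b1 b2 = D.ma * d1 - D.mb * d2 := by
      have := congrArg QuadraticAlgebra.re hd
      simp at this; linarith
    have e2 : D.X2 r0 r1 r2 c δ b0 b1 b2 = D.ma * d2 + D.mb * d1 - D.mb * d2 := by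
      have := congrArg QuadraticAlgebra.im hd
      simp at this; linarith
    rw [e1, e2]
    have a1 : (D.N : ℤ) ∣ (D.ma + D.ka * D.mb) := Int.dvd_of_emod_eq_zero hD.k1
    have a2 : (D.N : ℤ) ∣ (-D.mb + D.ka * D.ma - D.ka * D.mb) := Int.dvd_of_emod_eq_zero hD.k2
    have : D.ma * d1 - D.mb * d2 + D.ka * (D.ma * d2 + D.mb * d1 - D.mb * d2)
        = (D.ma + D.ka * D.mb) * d1 + (-D.mb + D.ka * D.ma - D.ka * D.mb) * d2 := by ring
    rw [this]
    exact dvd_add (a1.mul_right _) (a2.mul_right _)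
  have hsum : ln (D.A b0) r0 + ln (D.Q b2 δ) (2 * D.L - 1 - 2 * r1 + r0) = ln (D.T b1 δ) r1 ∨
      ln (D.A b0) r0 + ln (D.Q b2 δ) (2 * D.L - 1 - 2 * r1 + r0) = ln (D.T b1 δ) r1 + D.N := by
    have hcong : ∀ x : ℤ, x % (D.N : ℤ) ≡ x [ZMOD (D.N : ℤ)] := fun x => Int.mod_modEq x _
    have c1 : ((ln (D.A b0) r0 : ℕ) : ℤ) + ((ln (D.Q b2 δ) (2 * D.L - 1 - 2 * r1 + r0) : ℕ) : ℤ)
        - ((ln (D.T b1 δ) r1 : ℕ) : ℤ) ≡
        D.X1 r0 r1 r2 c δ b0 b1 b2 + D.ka * D.X2 r0 r1 r2 c δ b0 b1 b2 [ZMOD (D.N : ℤ)] := by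
      rw [eA, eQ, eT]
      unfold Dat2.qv Dat2.tv Dat2.res
      refine (((hcong _).add (hcong _)).sub (hcong _)).trans ?_
      rw [Dat2.X1, Dat2.X2]
      have e : ∀ a b : ℤ, a = b → a ≡ b [ZMOD (D.N : ℤ)] := fun a b h => by rw [h]
      apply e
      ring
    have c2 : (D.N : ℤ) ∣ ((ln (D.A b0) r0 : ℕ) : ℤ) + ((ln (D.Q b2 δ) (2 * D.L - 1 - 2 * r1 + r0) : ℕ) : ℤ)
        - ((ln (D.T b1 δ) r1 : ℕ) : ℤ) := by
      have := c1.symm.dvd
      have h3 := dvd_add this hdvd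
      simpa using h3
    obtain ⟨k, hk⟩ := c2
    have k0 : -1 < k := by
      by_contra hk'
      have : (D.N : ℤ) * k ≤ (D.N : ℤ) * (-1) := mul_le_mul_of_nonneg_left (by omega) hN0.le
      omega
    have k2 : k < 2 := by
      by_contra hk'
      have : (D.N : ℤ) * 2 ≤ (D.N : ℤ) * k := mul_le_mul_of_nonneg_left (by omega) hN0.le
      omega
    obtain rfl | rfl : k = 0 ∨ k = 1 := by omega
    · left; omega
    · right; omega
  have hslow : D.slow r1 δ b0 b1 b2 r0 = true := by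
    rcases hsum with hs | hs
    · exact cmp_sound hD h.1 hS (by omega) h0 (by rw [hSr, hs])
    · exact cmp_sound hD h.2 hS (by omega) h0 (by rw [hSr, hs])
  have hL := hD.hL
  have hv : 2 * r1 + D.L - r0 = r2 + D.L * (2 - c) := by
    have : D.L * (2 - c) + D.L * c = D.L * 2 := by rw [← Nat.mul_add]; congr 1; omega
    omega
  have hr2 : (2 * r1 + D.L - r0) % D.L = r2 := by
    rw [hv, Nat.add_mul_mod_self_left, Nat.mod_eq_of_lt h2]
  have hcc : 2 - (2 * r1 + D.L - r0) / D.L = c := by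
    rw [hv, Nat.add_mul_div_left _ _ hL, Nat.div_eq_of_lt h2]; omega
  rw [Dat2.slow_eq, hr2, hcc] at hslow
  exact okE_sound hD.hN hN0 hslow d hd

/-- all rows with the number `r1` -/
def Dat2.rows (D : Dat2) (r1 : ℕ) : Bool :=
  allB (fun δ => allB (fun b0 => allB (fun b1 => allB (fun b2 => D.row r1 δ b0 b1 b2) 2) 2) 2) 3

/-- rows `lo, ..., lo + n - 1` -/
def Dat2.chunk (D : Dat2) (lo n : ℕ) : Bool := allB (fun i => D.rows (lo + i)) n

theorem Dat2.cert {D : Dat2} (hD : D.Good) {φ : ℕ → ℕ → Z}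
    (hφ : ∀ b, b < 2 → ∀ r, r ≤ D.L → φ b r = ⟨D.fx b r, D.fy b r⟩)
    (hrow : ∀ r1, r1 < D.L → D.rows r1 = true) :
    Cert om (⟨D.ma, D.mb⟩ : Z) (⟨D.ca, D.cb⟩ : Z) φ D.L D.P 1 := by
  intro r0 r1 r2 c δ b0 b1 b2 h0 h1 h2 hc hδ hb0 hb1 hb2 hr _ d hd
  have h := allB_sound (allB_sound (allB_sound (allB_sound (hrow r1 h1) δ hδ) b0 hb0) b1 hb1) b2 hb2
  refine row_sound hD h h0 h1 h2 hc hδ hb0 hb1 hb2 hr d ?_
  rw [← hd]
  have he3 : (2 * δ + 4 - c) % 3 < 3 := Nat.mod_lt _ (by norm_num)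
  rw [hφ b0 hb0 r0 h0.le, hφ b1 hb1 r1 h1.le, hφ b2 hb2 r2 h2.le, rt_eq he3, mul_assoc 2 (om ^ δ),
    rt_eq hδ, ee_eq he3, ee_eq hδ]
  ext
  · simp [Dat2.X1, Dat2.cv]; ring
  · simp [Dat2.X2, Dat2.cv]; ring

end Pool.Agent.H41.MK
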