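import Pool.Agent.H41.MK.W.Fin
import Pool.Graph.R_pool_sql_team_seeded_35f281b4.K7.H27.MK.SkelF
import Pool.Graph.R_pool_sql_team_seeded_35f281b4.K7.H27.MK.UnW

/-!
# An infinite ternary word without abelian squares of period at least two
-/

set_option autoImplicit false

namespace Pool.Agent.H41.MK

open Pool.Agent.K7.H27.MK

/-- The word over the blocks of length 2500: it has no abelian square of period at least two. -/
theorem main :
    ∃ w : ℕ → Fin 3, ∀ i n : ℕ, 2 ≤ n →
      ¬ (∀ a : Fin 3,
          ((Finset.range n).filter (fun k => w (i + k) = a)).card =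
          ((Finset.range n).filter (fun k => w (i + n + k) = a)).card) :=
  ⟨xw W.wd SkelF.s 2500, fun i n hn hc =>
    main_xw om_rel SkelF.s_lt (by norm_num) (by norm_num) W.cert SkelF.s_nosq i n hn hc⟩

end Pool.Agent.H41.MK
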